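import Pool.Agent.P.MP_832dec_an.Sharp.Upper
import Pool.Agent.P.MP_832dec_an.Sharp.Lower

open MeasureTheory Set Metric Pool.Agent.P.MP_832dec_an

/-- The stability estimate holds with the power `p` of the Fraenkel asymmetry exactly when
`p ≥ 1`. -/
theorem Pool.Agent.Results.MP_832dec_an.OptimalExponent.result (β m p : ℝ) (hβ : 0 < β)
    (hm : 0 < m) :
    (∃ C : ℝ, 0 < C ∧ ∀ Ω : Set ℂ, IsOpen Ω → Bornology.IsBounded Ω →
      LipschitzBoundary Ω → volume Ω = ENNReal.ofReal m → ∀ u w : ℂ → ℝ, IsRobinSolution Ω β u →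
      IsSchwarz Ω u w → ENNReal.ofReal (C * asym Ω ^ p) ≤
        eLpNorm (discSolution β (radius Ω) - w) ⊤ (volume.restrict (ball 0 (radius Ω)))) ↔
      1 ≤ p := by
  obtain ⟨C₁, hC₁, h₁⟩ := upper hβ hm
  refine ⟨?_, fun hp => ?_⟩
  · rintro ⟨C, hC, h⟩
    by_contra hp
    have hq : 0 < 1 - p := by linarith
    obtain ⟨C₂, hC₂, h₂⟩ := lower hβ hm
    set y := (C / (112 * C₂)) ^ (1 - p)⁻¹ with hy
    have hy0 : 0 < y := by positivity
    have hε : 0 < min 1 (y * C₁ / C₂) := by positivity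
    obtain ⟨Ω, u, w, a1, a2, a3, a4, a5, a6, a7, a8⟩ := h₂ _ hε (min_le_left _ _)
    have hα : 0 < asym Ω := lt_of_lt_of_le (by positivity) a7
    have b1 := (ENNReal.ofReal_le_ofReal_iff (by positivity)).1
      ((h₁ Ω a1 a2 a3 a4 u a5 w a6.equi).trans a8)
    have b2 := (ENNReal.ofReal_le_ofReal_iff (by positivity)).1
      ((h Ω a1 a2 a3 a4 u w a5 a6).trans a8)
    have b3 : asym Ω ≤ y := by
      have : C₂ * min 1 (y * C₁ / C₂) ≤ C₂ * (y * C₁ / C₂) := by gcongr; exact min_le_right _ _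
      rw [mul_div_cancel₀ _ hC₂.ne'] at this
      exact le_of_mul_le_mul_left (by linarith) hC₁
    have b4 : asym Ω ^ (1 - p) ≤ C / (112 * C₂) := by
      rw [← Real.rpow_inv_rpow (x := C / (112 * C₂)) (by positivity) hq.ne']
      exact Real.rpow_le_rpow hα.le b3 hq.le
    have b5 : asym Ω ^ p * asym Ω ^ (1 - p) = asym Ω := by
      rw [← Real.rpow_add hα]
      simp
    have b6 : 0 < asym Ω ^ p := by positivity
    rw [le_div_iff₀ (by positivity)] at b4
    have b7 := mul_le_mul_of_nonneg_left b4 b6.le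
    have b8 := mul_le_mul_of_nonneg_left a7 hC₂.le
    rw [← mul_assoc, b5] at b7
    nlinarith [mul_pos hC₂ hα]
  · refine ⟨C₁ / 2 ^ (p - 1), by positivity, fun Ω a1 a2 a3 a4 u w a5 a6 => ?_⟩
    refine (ENNReal.ofReal_le_ofReal ?_).trans (h₁ Ω a1 a2 a3 a4 u a5 w a6.equi)
    have b1 : asym Ω ^ p = asym Ω ^ (p - 1) * asym Ω := by
      rw [← Real.rpow_add_one' (asym_nonneg Ω) (by linarith), sub_add_cancel]
    have b2 : asym Ω ^ (p - 1) ≤ 2 ^ (p - 1) :=
      Real.rpow_le_rpow (asym_nonneg Ω) (asym_le_two a2) (by linarith)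
    have := asym_nonneg Ω
    calc _ ≤ C₁ / 2 ^ (p - 1) * (2 ^ (p - 1) * asym Ω) := by
          rw [b1]
          gcongr
      _ = _ := by field_simp
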